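import Pool.Agent.Helper42.PP.Goals2
import Pool.Agent.Helper32.RP.LOB

/-!
# Project PP (MP_fc6b1e_nt): the projection on the `P`-part and multiplication by elements of `κ`
-/

set_option autoImplicit false

namespace Pool.Agent.Helper62.PP

open NumberField Polynomial Module IsDedekindDomain Pool.Agent.Helper51.SigLeo
open Pool.Agent.Helper51.RP Pool.Agent.Helper42.RD Pool.Agent.Helper42.PP

/-- The idempotent of the `P`-part. -/
theorem exists_idem {p : ℕ} [Fact p.Prime] {m : ℕ} (P : (ZMod p)[X])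
    (hmp : m.Coprime p) (hd : P ∣ X ^ m - 1) :
    ∃ e : (ZMod p)[X], P ∣ e - 1 ∧ X ^ m - 1 ∣ P * e := by
  have hp : p.Prime := Fact.out
  obtain ⟨Q, hQ⟩ := hd
  have hmF : (m : ZMod p) ≠ 0 := by
    rw [Ne, ZMod.natCast_eq_zero_iff]
    intro h
    have h1 := Nat.Coprime.eq_one_of_dvd hmp.symm h
    exact hp.one_lt.ne' h1
  have hsep : (X ^ m - 1 : (ZMod p)[X]).Separable := by
    have h := Polynomial.separable_X_pow_sub_C (F := ZMod p) (n := m) 1 hmF one_ne_zero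
    rwa [C_1] at h
  have hcop : IsCoprime P Q := by
    rw [hQ] at hsep
    exact hsep.isCoprime
  obtain ⟨A, B, hAB⟩ := hcop
  refine ⟨B * Q, ⟨-A, ?_⟩, ⟨B, ?_⟩⟩
  · rw [← hAB]; ring
  · rw [hQ]; ring

section op

variable {p : ℕ} [Fact p.Prime] {K M : Type} [Field K] [Field M] [Algebra K M]

theorem act_iter (δ : M ≃ₐ[K] M) (j : ℕ) (y : Mˣ) :
    (Units.map ((δ : M →+* M) : M →* M))^[j] y = act (δ ^ j) y := by
  induction j with
  | zero => ext; simp [act]
  | succ n ih =>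
    rw [Function.iterate_succ_apply', ih]
    ext
    simp [act, pow_succ']

theorem mem_pol (H : Subgroup Mˣ) (δ : M ≃ₐ[K] M) (hH : ∀ y ∈ H, act δ y ∈ H) (c : (ZMod p)[X])
    (y : Mˣ) (hy : y ∈ H) : pol c δ y ∈ H := by
  rw [Pool.Agent.Helper32.RP.pol_apply]
  refine Subgroup.prod_mem _ fun j hj => Subgroup.pow_mem _ ?_ _
  clear hj
  induction j with
  | zero => exact hy
  | succ n ih =>
    rw [Function.iterate_succ_apply']
    exact hH _ ih

/-- `P(δ)(c(δ) y)` is a `p`-th power if `X^m - 1` divides `P c`. -/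
theorem pw_pol_pol {m : ℕ} (δ : M ≃ₐ[K] M) (hδ : δ ^ m = 1) (P c : (ZMod p)[X])
    (h : X ^ m - 1 ∣ P * c) (y : Mˣ) : Pw p (pol P δ (pol c δ y)) := by
  obtain ⟨V, _, _, φ', q, hq1, hq2⟩ := Pool.Agent.Helper32.RP.quot_mod (p := p) δ
  rw [← hq1]
  have hq3 : ∀ (j : ℕ) (x : Mˣ), (q ((Units.map ((δ : M →+* M) : M →* M))^[j] x)).toAdd =
      φ'^[j] (q x).toAdd := by
    intro j
    induction j with
    | zero => intro x; rfl
    | succ n ih =>
      intro x
      rw [Function.iterate_succ_apply', Function.iterate_succ_apply', ← ih]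
      exact hq2 _
  have hq4 : ∀ (A : (ZMod p)[X]) (x : Mˣ), (q (pol A δ x)).toAdd = aeval φ' A (q x).toAdd := by
    intro A x
    rw [Pool.Agent.Helper32.RP.pol_apply, map_prod, toAdd_prod, Pool.Agent.Helper32.RP.aeval_lin]
    refine Finset.sum_congr rfl fun j _ => ?_
    rw [map_pow, toAdd_pow, ← hq3, ← Nat.cast_smul_eq_nsmul (ZMod p), ZMod.natCast_zmod_val]
  have hkey : aeval φ' (X ^ m - 1 : (ZMod p)[X]) (q y).toAdd = 0 := by
    rw [map_sub, map_pow, aeval_X, map_one, LinearMap.sub_apply, Module.End.pow_apply, ← hq3,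
      Module.End.one_apply]
    have h8 : (Units.map ((δ : M →+* M) : M →* M))^[m] y = y := by
      rw [act_iter, hδ]
      ext
      simp [act]
    rw [h8, sub_self]
  obtain ⟨B, hB⟩ := h
  have h10 : (q (pol P δ (pol c δ y))).toAdd = 0 := by
    rw [hq4, hq4, ← Module.End.mul_apply, ← map_mul, hB, mul_comm, map_mul, Module.End.mul_apply,
      hkey, map_zero]
  exact h10

/-- Multiplication of the `P`-part of `y` by `c ∈ κ`. -/
theorem exists_smul (hF : P_FUN) {m : ℕ} (δ : M ≃ₐ[K] M) (P : (ZMod p)[X]) (hm : 0 < m)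
    (hmp : m.Coprime p) (hδ : δ ^ m = 1) (hP : Irreducible P) (hd : P ∣ X ^ m - 1)
    (c : AdjoinRoot P) (y : Mˣ) : ∃ t : Mˣ, Pw p (pol P δ t) ∧
      (∀ F : Mˣ → AdjoinRoot P, IsP δ P F → F t = c * F y) ∧
      ∀ H : Subgroup Mˣ, (∀ y ∈ H, act δ y ∈ H) → y ∈ H → t ∈ H := by
  obtain ⟨e, he1, he2⟩ := exists_idem P hmp hd
  obtain ⟨d, rfl⟩ := AdjoinRoot.mk_surjective c
  refine ⟨pol (d * e) δ y, ?_, ?_, ?_⟩
  · refine pw_pol_pol δ hδ P (d * e) ?_ y
    have h1 : P * (d * e) = d * (P * e) := by ring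
    rw [h1]
    exact he2.mul_left d
  · intro F hFP
    rw [((hF p K M m δ P hm hmp hδ hP hd).1 F hFP).1 (d * e) y, map_mul]
    have h2 : AdjoinRoot.mk P e = 1 := by
      have h3 : AdjoinRoot.mk P (e - 1) = 0 := AdjoinRoot.mk_eq_zero.2 he1
      rwa [map_sub, map_one, sub_eq_zero] at h3
    rw [h2, mul_one]
  · intro H hH hy
    exact mem_pol H δ hH (d * e) y hy

end op

section hom

variable {F A : Type} [Field F] [AddCommGroup A]

theorem Hom_one {f : Fˣ → A} (h : Hom f) : f 1 = 0 := by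
  have h1 := h 1 1
  rw [mul_one] at h1
  exact left_eq_add.1 h1

theorem Hom_inv {f : Fˣ → A} (h : Hom f) (x : Fˣ) : f x⁻¹ = - f x := by
  have h1 := h x x⁻¹
  rw [mul_inv_cancel, Hom_one h] at h1
  exact (neg_eq_of_add_eq_zero_right h1.symm).symm

theorem Hom_div {f : Fˣ → A} (h : Hom f) (x y : Fˣ) : f (x / y) = f x - f y := by
  rw [div_eq_mul_inv, h, Hom_inv h, sub_eq_add_neg]

theorem Hom_prod {f : Fˣ → A} (h : Hom f) {ι : Type} (s : Finset ι) (g : ι → Fˣ) :
    f (∏ i ∈ s, g i) = ∑ i ∈ s, f (g i) := by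
  classical
  induction s using Finset.induction_on with
  | empty => rw [Finset.prod_empty, Finset.sum_empty, Hom_one h]
  | insert a s ha ih => rw [Finset.prod_insert ha, Finset.sum_insert ha, h, ih]

theorem Pw_mul {p : ℕ} {x y : Fˣ} (hx : Pw p x) (hy : Pw p y) : Pw p (x * y) := by
  obtain ⟨a, rfl⟩ := hx
  obtain ⟨b, rfl⟩ := hy
  exact ⟨a * b, (mul_pow _ _ _).symm⟩

theorem Pw_inv {p : ℕ} {x : Fˣ} (hx : Pw p x) : Pw p x⁻¹ := by
  obtain ⟨a, rfl⟩ := hx
  exact ⟨a⁻¹, (inv_pow _ _).symm⟩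

theorem Pw_div {p : ℕ} {x y : Fˣ} (hx : Pw p x) (hy : Pw p y) : Pw p (x / y) := by
  rw [div_eq_mul_inv]
  exact Pw_mul hx (Pw_inv hy)

theorem Pw_one {p : ℕ} : Pw p (1 : Fˣ) := ⟨1, (one_pow p).symm⟩

theorem Pw_prod {p : ℕ} {ι : Type} (s : Finset ι) (g : ι → Fˣ) (h : ∀ i ∈ s, Pw p (g i)) :
    Pw p (∏ i ∈ s, g i) := by
  classical
  induction s using Finset.induction_on with
  | empty => rw [Finset.prod_empty]; exact Pw_one
  | insert a s ha ih =>
    rw [Finset.prod_insert ha]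
    exact Pw_mul (h a (Finset.mem_insert_self a s)) (ih fun i hi => h i (Finset.mem_insert_of_mem hi))

end hom

end Pool.Agent.Helper62.PP
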