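import Pool.Agent.Helper11.PP.GoalsD
import Pool.Agent.Helper31.LE.FIN
import Pool.Agent.Helper90.RP.DUAL
import Pool.Agent.Helper40.RS.Gal

/-!
# Project PP (MP_fc6b1e_nt, density theorem), packet `D_BFN`

There are finitely many cyclic extensions `N` of degree `p` of `K` for which the product of the norms of
the ramified primes is at most `X`.
-/

namespace Pool.Agent.Helper62.PP

open NumberField Polynomial Module IsDedekindDomain TensorProduct Pool.Agent.Helper51.SigLeo
open Pool.Agent.Helper51.RP Pool.Agent.Helper42.RD Pool.Agent.Helper11.LE Pool.Agent.Helper11.PP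
open Pool.Agent.Helper40.RS (bel)

/-- Finitely many primes contain a given nonzero integer. -/
theorem finite_mem {F : Type} [Field F] [NumberField F] (x : 𝓞 F) (hx : x ≠ 0) :
    {W : HeightOneSpectrum (𝓞 F) | x ∈ W.asIdeal}.Finite := by
  have h := Ideal.finite_factors (R := 𝓞 F) (I := Ideal.span {x})
    (by simpa only [Submodule.zero_eq_bot, ne_eq, Ideal.span_singleton_eq_bot] using hx)
  refine h.subset ?_
  intro W hW
  exact Ideal.dvd_span_singleton.2 hW

/-- A family of elements, pairwise incongruent modulo `p`-th powers, with valuations divisible by `p`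
outside a finite set of primes, is finite. -/
theorem finite_of_outside {p : ℕ} [hp : Fact p.Prime] {F : Type} [Field F] [NumberField F]
    {ι : Type} (S : Set ι) (f : ι → Fˣ) (Z : Set (HeightOneSpectrum (𝓞 F))) (hZ : Z.Finite)
    (h1 : ∀ N ∈ S, ∀ W, W ∉ Z → (p : ℤ) ∣ ordv W (f N : F))
    (h2 : ∀ N ∈ S, ∀ N' ∈ S, N ≠ N' → ¬ Pw p (f N / f N')) : S.Finite := by
  classical
  by_contra hS
  obtain ⟨n, hn⟩ := Pool.Agent.Helper19.RD.d_fin p F
  have : Finite Z := hZ
  have := Fintype.ofFinite Z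
  have : NeZero p := ⟨hp.out.ne_zero⟩
  obtain ⟨T, hTS, hTc⟩ := Set.Infinite.exists_subset_card_eq hS
    (n * Fintype.card (Z → ZMod p) + 1)
  set φ : ι → (Z → ZMod p) := fun x w => ((ordv w.1 (f x : F) : ℤ) : ZMod p) with hφ
  have hcard : T.card ≤ n * (Finset.image φ T).card := by
    apply Finset.card_le_mul_card_image
    intro C hC
    obtain ⟨y, hy, hyC⟩ := Finset.mem_image.mp hC
    set G : Finset Fˣ := (T.filter fun x => φ x = C).image fun x => f x / f y with hG
    have hinj : Set.InjOn (fun x => f x / f y) ((T.filter fun x => φ x = C : Finset ι) : Set ι) := by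
      intro a ha b hb hab
      by_contra hne
      have ha' := (Finset.mem_filter.1 (Finset.mem_coe.1 ha)).1
      have hb' := (Finset.mem_filter.1 (Finset.mem_coe.1 hb)).1
      apply h2 a (hTS ha') b (hTS hb') hne
      have h3 : f a = f b := div_left_injective hab
      exact ⟨1, by rw [h3, div_self', one_pow]⟩
    have hGc : G.card = (T.filter fun x => φ x = C).card := Finset.card_image_of_injOn hinj
    rw [← hGc]
    refine hn G ?_ ?_
    · intro z hz w
      rw [hG, Finset.mem_image] at hz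
      obtain ⟨x, hx, rfl⟩ := hz
      rw [Finset.mem_filter] at hx
      rw [Pool.Agent.Helper31.LE.ordv_div]
      by_cases hw : w ∈ Z
      · have h1 : φ x ⟨w, hw⟩ = φ y ⟨w, hw⟩ := by rw [hx.2, hyC]
        have h2 : ((ordv w (f x : F) : ℤ) : ZMod p) = ((ordv w (f y : F) : ℤ) : ZMod p) := h1
        rw [← ZMod.intCast_zmod_eq_zero_iff_dvd, Int.cast_sub, h2, sub_self]
      · exact dvd_sub (h1 x (hTS hx.1) w hw) (h1 y (hTS hy) w hw)
    · intro z hz z' hz' hne
      rw [hG, Finset.mem_image] at hz hz'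
      obtain ⟨x, hx, rfl⟩ := hz
      obtain ⟨x', hx', rfl⟩ := hz'
      rw [Finset.mem_filter] at hx hx'
      have h3 : f x / f y / (f x' / f y) = f x / f x' := by
        rw [div_div_div_cancel_right]
      rw [h3]
      exact h2 x (hTS hx.1) x' (hTS hx'.1) fun h => hne (by rw [h])
  have h4 : (Finset.image φ T).card ≤ Fintype.card (Z → ZMod p) := Finset.card_le_univ _
  have h5 := hcard.trans (Nat.mul_le_mul_left n h4)
  omega

/-- `Gen` does not change if `a` is multiplied by a `p`-th power. -/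
theorem gen_mul_pow {p : ℕ} {K K₁ : Type} [Field K] [Field K₁] (j : K₁ →+* AlgebraicClosure K)
    (a a' y : K₁ˣ) (h : a = a' * y ^ p) (N : IntermediateField K (AlgebraicClosure K))
    (hg : Gen p j a N) : Gen p j a' N := by
  intro s hs g g1 g2
  have h1 : (s * j (y : K₁)) ^ p = j (a : K₁) := by
    rw [mul_pow, hs, h, Units.val_mul, Units.val_pow_eq_pow_val, map_mul, map_pow]
  have h2 := hg (s * j (y : K₁)) h1 g g1 g2
  rw [map_mul, g2] at h2
  have h3 : j (y : K₁) ≠ 0 := by
    rw [Ne, map_eq_zero]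
    exact y.ne_zero
  exact mul_right_cancel₀ h3 h2

theorem d_bfn (h1 : D_CNV) (h2 : D_UNQ) (h3 : D_TAM) (_h4 : D_PRD) :
    Pool.Agent.Helper11.PP.D_BFN := by
  classical
  intro p hpF K _ _ X
  have hp : p.Prime := hpF.out
  have : NeZero (p : AlgebraicClosure K) := ⟨by
    have := hp.ne_zero
    exact_mod_cast this⟩
  obtain ⟨ζ, hζ⟩ := HasEnoughRootsOfUnity.exists_primitiveRoot (AlgebraicClosure K) p
  let K₁ : IntermediateField K (AlgebraicClosure K) := IntermediateField.adjoin K {ζ}
  have hint : IsIntegral K ζ := Algebra.IsIntegral.isIntegral ζ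
  have : FiniteDimensional K K₁ := IntermediateField.adjoin.finiteDimensional hint
  have : NumberField K₁ := NumberField.of_module_finite K K₁
  have : IsCyclotomicExtension {p} K K₁ := hζ.intermediateField_adjoin_isCyclotomicExtension K
  have : IsGalois K K₁ := IsCyclotomicExtension.isGalois {p} K K₁
  let ε : K₁ := ⟨ζ, IntermediateField.mem_adjoin_simple_self K ζ⟩
  have hε : IsPrimitiveRoot ε p := by
    refine IsPrimitiveRoot.of_map_of_injective (f := algebraMap K₁ (AlgebraicClosure K)) ?_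
      (algebraMap K₁ (AlgebraicClosure K)).injective
    exact hζ
  have hcyc : Cyc p K K₁ ε := by
    refine ⟨hε, inferInstance, ?_⟩
    intro σ hσ
    have h1 : (σ : K₁ →ₐ[K] K₁) = AlgHom.id K K₁ := by
      refine IntermediateField.algHom_ext_of_eq_adjoin K (S := K₁) (s := ({ζ} : Set _)) rfl ?_
      intro x hx
      have hx' : x = ζ := hx
      subst hx'
      exact hσ
    ext x
    have := congrArg (fun f ↦ f x) h1
    simpa using congrArg Subtype.val this
  set j : K₁ →+* AlgebraicClosure K := algebraMap K₁ (AlgebraicClosure K) with hjdef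
  have hj : ∀ x : K, j (algebraMap K K₁ x) = algebraMap K (AlgebraicClosure K) x := fun x ↦ rfl
  -- the elements `a`
  have hA : ∀ N : IntermediateField K (AlgebraicClosure K), ∃ a : K₁ˣ, N ∈ CycN p K →
      ¬ Pw p a ∧ Gen p j a N := by
    intro N
    by_cases hN : N ∈ CycN p K
    · obtain ⟨a, -, ha2, ha3⟩ := h1 p K K₁ ε hcyc j hj N hN
      exact ⟨a, fun _ ↦ ⟨ha2, ha3⟩⟩
    · exact ⟨1, fun h ↦ absurd h hN⟩
  choose f hf using hA
  -- the ramified primes are finitely many
  have hpK : (p : 𝓞 K) ≠ 0 := by exact_mod_cast hp.ne_zero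
  have hram : ∀ N ∈ CycN p K, {v : HeightOneSpectrum (𝓞 K) | RamIn N v}.Finite := by
    intro N hN
    have h5 := Pool.Agent.Helper90.RP.Dual.finite_ordv (f N : K₁) (f N).ne_zero
    refine ((finite_mem (p : 𝓞 K) hpK).union (h5.image (fun W ↦ bel K W))).subset ?_
    intro v hv
    by_cases hpv : (p : 𝓞 K) ∈ v.asIdeal
    · exact Or.inl hpv
    · right
      obtain ⟨W, hW, hWd⟩ := (h3 p K K₁ ε hcyc j hj N hN (f N) (hf N hN).1 (hf N hN).2 v hpv).1 hv
      refine ⟨W, ?_, ?_⟩
      · intro h0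
        apply hWd
        rw [h0]
        exact dvd_zero _
      · exact HeightOneSpectrum.ext hW
  have hle : ∀ N ∈ CycN p K, cond K N ≤ X → ∀ v : HeightOneSpectrum (𝓞 K), RamIn N v →
      ((X.factorial : ℕ) : 𝓞 K) ∈ v.asIdeal := by
    intro N hN hX v hv
    have hfin := hram N hN
    have h5 : cond K N = ∏ v ∈ hfin.toFinset, Ideal.absNorm v.asIdeal :=
      finprod_mem_eq_finite_toFinset_prod _ hfin
    have h6 : ∀ v : HeightOneSpectrum (𝓞 K), Ideal.absNorm v.asIdeal ≠ 0 := by
      intro v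
      rw [Ne, Ideal.absNorm_eq_zero_iff]
      exact v.ne_bot
    have h7 : Ideal.absNorm v.asIdeal ∣ cond K N := by
      rw [h5]
      exact Finset.dvd_prod_of_mem _ (hfin.mem_toFinset.2 hv)
    have h8 : 0 < cond K N := by
      rw [h5]
      exact Finset.prod_pos fun v _ ↦ Nat.pos_of_ne_zero (h6 v)
    have h9 : Ideal.absNorm v.asIdeal ≤ X := (Nat.le_of_dvd h8 h7).trans hX
    have h10 : Ideal.absNorm v.asIdeal ∣ X.factorial :=
      Nat.dvd_factorial (Nat.pos_of_ne_zero (h6 v)) h9
    obtain ⟨c, hc⟩ := h10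
    rw [hc, Nat.cast_mul]
    exact Ideal.mul_mem_right _ _ (Ideal.absNorm_mem _)
  -- the exceptional primes of `K₁`
  have hne : (((p * X.factorial : ℕ)) : 𝓞 K₁) ≠ 0 := by
    have h5 : p * X.factorial ≠ 0 := mul_ne_zero hp.ne_zero (Nat.factorial_ne_zero X)
    exact_mod_cast h5
  refine finite_of_outside (p := p) (F := K₁) _ f _ (finite_mem _ hne) ?_ ?_
  · rintro N ⟨hN, hX⟩ W hW
    by_contra hd
    apply hW
    show (((p * X.factorial : ℕ)) : 𝓞 K₁) ∈ W.asIdeal
    have habove : Above W (bel K W) := rfl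
    have hmem : ∀ n : ℕ, (n : 𝓞 K) ∈ (bel K W).asIdeal → (n : 𝓞 K₁) ∈ W.asIdeal := by
      intro n hn
      have h5 : algebraMap (𝓞 K) (𝓞 K₁) (n : 𝓞 K) ∈ W.asIdeal := hn
      rwa [map_natCast] at h5
    rw [Nat.cast_mul]
    by_cases hpv : (p : 𝓞 K) ∈ (bel K W).asIdeal
    · exact Ideal.mul_mem_right _ _ (hmem p hpv)
    · have hr : RamIn N (bel K W) :=
        (h3 p K K₁ ε hcyc j hj N hN (f N) (hf N hN).1 (hf N hN).2 (bel K W) hpv).2
          ⟨W, habove, hd⟩
      exact Ideal.mul_mem_left _ _ (hmem _ (hle N hN hX _ hr))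
  · rintro N ⟨hN, -⟩ N' ⟨hN', -⟩ hne' ⟨y, hy⟩
    apply hne'
    have h5 : f N = f N' * y ^ p := by rw [← hy, mul_div_cancel]
    exact h2 p K K₁ ε hcyc j hj (f N') (hf N' hN').1 N hN N' hN'
      (gen_mul_pow j (f N) (f N') y h5 N (hf N hN).2) (hf N' hN').2

end Pool.Agent.Helper62.PP
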