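import Pool.Agent.Helper62.PP.Proj
import Pool.Agent.Helper42.PP.NZY
import Pool.Agent.Helper90.RP.DUAL

/-!
# Project PP (MP_fc6b1e_nt, density theorem), packet `P_DEC`
-/

set_option autoImplicit false

namespace Pool.Agent.Helper62.PP

open NumberField Polynomial Module IsDedekindDomain Pool.Agent.Helper51.SigLeo
open Pool.Agent.Helper51.RP Pool.Agent.Helper42.RD Pool.Agent.Helper42.PP
open Pool.Agent.Helper40.RS (bel)
open Pool.Agent.Helper40.RD (bel_of_above)

section main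

variable {p : ℕ} [Fact p.Prime] {k : Type} [NormedField k] [NormedAlgebra ℚ_[p] k]
  {K M K₁ M₁ : Type} [Field K] [NumberField K] [Field M] [NumberField M] [Field K₁]
  [NumberField K₁] [Field M₁] [NumberField M₁] [Algebra K M] [Algebra K K₁] [Algebra K M₁]
  [Algebra M M₁] [Algebra K₁ M₁] {ε : K₁} {δ : M ≃ₐ[K] M} {P : (ZMod p)[X]}

/-- The elements with valuation `0` at the primes not in `up M S` and not above a prime of `Z`. -/
def HZ (S Z : Finset (HeightOneSpectrum (𝓞 K))) : Subgroup Mˣ where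
  carrier := {y | ∀ w ∉ up M S, (∀ v ∈ Z, ¬ Above w v) → w.valuation M (y : M) = 1}
  mul_mem' := by
    intro a b ha hb w hw hz
    rw [Units.val_mul, map_mul, ha w hw hz, hb w hw hz, one_mul]
  one_mem' := by
    intro w _ _
    rw [Units.val_one, map_one]
  inv_mem' := by
    intro a ha w hw hz
    rw [Units.val_inv_eq_inv_val, map_inv₀, ha w hw hz, inv_one]

theorem mem_HZ {S Z : Finset (HeightOneSpectrum (𝓞 K))} {y : Mˣ} : y ∈ HZ S Z ↔
    ∀ w ∉ up M S, (∀ v ∈ Z, ¬ Above w v) → w.valuation M (y : M) = 1 := Iff.rfl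

theorem HZ_stable [IsGalois K M] (S Z : Finset (HeightOneSpectrum (𝓞 K))) (g : M ≃ₐ[K] M) :
    ∀ y ∈ HZ (M := M) S Z, act g y ∈ HZ (M := M) S Z := by
  intro y hy w hw hz
  obtain ⟨w', h1, h2⟩ := exists_pull (K := K) w g
  show w.valuation M (g (y : M)) = 1
  rw [h1]
  apply hy w'
  · have h3 := bel_notMem hw
    rw [← h2] at h3
    exact notMem_up h3 rfl
  · intro v hv hav
    apply hz v hv
    have h4 := bel_of_above hav
    rw [h2] at h4
    rw [← h4]
    rfl

theorem HZ_empty (S : Finset (HeightOneSpectrum (𝓞 K))) (x : Mˣ) :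
    x ∈ HZ (M := M) S ∅ ↔ x ∈ (up M S).unit M := by
  rw [mem_HZ]
  constructor
  · intro h w hw
    exact h w hw (fun v hv => absurd hv (Finset.notMem_empty v))
  · intro h w hw _
    exact h w hw

theorem unit_stable [IsGalois K M] (S : Finset (HeightOneSpectrum (𝓞 K))) (g : M ≃ₐ[K] M) :
    ∀ y ∈ (up M S).unit M, act g y ∈ (up M S).unit M := by
  intro y hy
  rw [← HZ_empty] at hy ⊢
  exact HZ_stable S ∅ g y hy

/-- An element whose valuations are divisible by `p` outside `S` is an `S`-unit times a `p`-th power. -/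
theorem exists_unit (B : Base p K M K₁ M₁ ε δ P) (x : Mˣ)
    (h : ∀ w ∉ up M B.S, (p : ℤ) ∣ ordv w (x : M)) :
    ∃ y : Mˣ, x / y ^ p ∈ (up M B.S).unit M := by
  classical
  have hp : p.Prime := Fact.out
  have hfin := Pool.Agent.Helper90.RP.Dual.finite_ordv (x : M) x.ne_zero
  let n : HeightOneSpectrum (𝓞 M) →₀ ℤ := Finsupp.ofSupportFinite
    (fun w => ordv w (x : M) / p) (hfin.subset (by
      intro w hw h0
      apply hw
      show ordv w (x : M) / p = 0
      rw [h0, Int.zero_ediv]))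
  obtain ⟨y, hy⟩ := B.prM n
  refine ⟨y, ?_⟩
  intro w hw
  have h1 : ordv w (y : M) = ordv w (x : M) / p := hy w hw
  have h2 : ((x / y ^ p : Mˣ) : M) ≠ 0 := Units.ne_zero _
  rw [← Pool.Agent.Helper90.RP.Dual.ordv_eq_zero_iff w h2]
  have h3 : ((x / y ^ p : Mˣ) : M) = (x : M) * ((y : M) ^ p)⁻¹ := by
    rw [Units.val_div_eq_div_val, Units.val_pow_eq_pow_val, div_eq_mul_inv]
  have h4 : ordv w ((y : M) ^ p) = p * ordv w (y : M) := by
    unfold ordv
    rw [map_pow, WithZero.log_pow]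
    simp
  rw [h3, Pool.Agent.Helper90.RP.Dual.ordv_mul w x.ne_zero
    (inv_ne_zero (pow_ne_zero _ y.ne_zero)), Pool.Agent.Helper90.RP.Dual.ordv_inv, h4, h1]
  obtain ⟨c, hc⟩ := h w hw
  have hp0 : (p : ℤ) ≠ 0 := by exact_mod_cast hp.ne_zero
  rw [hc, Int.mul_ediv_cancel_left _ hp0]
  ring

theorem p_dec (h1 : P_FUN) (h2 : P_NZY) (_h3 : P_UPR) : Pool.Agent.Helper42.PP.P_DEC := by
  classical
  intro p _ k _ _ K M K₁ M₁ _ _ _ _ _ _ _ _ _ _ _ _ _ ε δ P hs B x hx Z hZ hZx
  have hgal := hs.gM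
  obtain ⟨ζ, Φ, hphi⟩ := hs.phi
  have hm : 0 < finrank K M := finrank_pos
  have hδ : δ ^ finrank K M = 1 := by rw [← hs.ord]; exact pow_orderOf_eq_one δ
  have hfun := h1 p K M (finrank K M) δ P hm hphi.copm hδ hphi.irr hphi.dvdP
  have hkill : ∀ F : Mˣ → AdjoinRoot P, IsP δ P F → ∀ y, Pw p y → F y = 0 :=
    fun F hF => (hfun.1 F hF).2
  have hsm := fun (c : AdjoinRoot P) (y : Mˣ) =>
    exists_smul h1 δ P hm hphi.copm hδ hphi.irr hphi.dvdP c y
  obtain ⟨n1, n2, n3, n4⟩ := h2 p k K M K₁ M₁ ε δ P hs B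
  -- `nv v` is a `P`-functional
  have hnv : ∀ v, IsP δ P (B.nv v) := by
    intro v
    refine (hfun.2 (ordp p (B.w v)) ?_).1
    intro a b
    show ((ordv (B.w v) ((a : M) * (b : M)) : ℤ) : ZMod p) = _
    rw [Pool.Agent.Helper90.RP.Dual.ordv_mul _ a.ne_zero b.ne_zero]
    push_cast
    rfl
  have hpolp : ∀ y : Mˣ, Pw p (pol P δ (y ^ p)) := by
    intro y
    rw [map_pow]
    exact ⟨_, rfl⟩
  -- `S`-units
  have hunit : ∀ y ∈ (up M B.S).unit M, Pw p (pol P δ y) → ∀ F : Mˣ → AdjoinRoot P, IsP δ P F →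
      F y = ∑ i, B.rho i y * F (B.u i) := by
    intro y hy hyP F hF
    choose t ht1 ht2 ht3 using fun i => hsm (B.rho i y) (B.u i)
    have h4 : Pw p (y / ∏ i, t i) := by
      refine B.rho0 _ ?_ ?_ ?_
      · refine Subgroup.div_mem _ hy (Subgroup.prod_mem _ fun i _ => ?_)
        exact ht3 i _ (unit_stable B.S δ) (B.uS i)
      · rw [_root_.map_div, _root_.map_prod]
        exact Pw_div hyP (Pw_prod _ _ fun i _ => ht1 i)
      · intro j
        rw [Hom_div (B.rhoP j).1, Hom_prod (B.rhoP j).1, Finset.sum_eq_single j]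
        · rw [ht2 j _ (B.rhoP j), B.rhou, if_pos rfl, mul_one, sub_self]
        · intro i _ hij
          rw [ht2 i _ (B.rhoP j), B.rhou, if_neg (Ne.symm hij), mul_zero]
        · intro h
          exact absurd (Finset.mem_univ j) h
    have h5 := hkill F hF _ h4
    rw [Hom_div hF.1, Hom_prod hF.1, sub_eq_zero] at h5
    rw [h5]
    exact Finset.sum_congr rfl fun i _ => ht2 i F hF
  -- elements killed by the `nv v`
  have hred : ∀ y : Mˣ, Pw p (pol P δ y) → (∀ v ∈ Z, B.nv v y = 0) →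
      (∀ w ∉ up M B.S, (∀ v ∈ Z, ¬ Above w v) → (p : ℤ) ∣ ordv w (y : M)) →
      ∃ z : Mˣ, y / z ^ p ∈ (up M B.S).unit M ∧ Pw p (pol P δ (y / z ^ p)) ∧
        ∀ F : Mˣ → AdjoinRoot P, IsP δ P F → F (y / z ^ p) = F y := by
    intro y hyP hyn hyw
    obtain ⟨z, hz⟩ := exists_unit B y (by
      intro w hw
      by_cases hv : ∃ v ∈ Z, Above w v
      · obtain ⟨v, hvZ, hvw⟩ := hv
        exact n3 v (hZ v hvZ) w hvw y hyP (hyn v hvZ)
      · push Not at hv
        exact hyw w hw hv)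
    refine ⟨z, hz, ?_, ?_⟩
    · rw [_root_.map_div]
      exact Pw_div hyP (hpolp z)
    · intro F hF
      rw [Hom_div hF.1, hkill F hF _ ⟨z, rfl⟩, sub_zero]
  constructor
  · intro F hF
    choose t ht1 ht2 ht3 using fun v => hsm (B.nv v x) (nrm M M₁ (B.z v))
    set y : Mˣ := x / ∏ v ∈ Z, t v with hy
    have hFy : ∀ G : Mˣ → AdjoinRoot P, IsP δ P G →
        G y = G x - ∑ v ∈ Z, B.nv v x * G (nrm M M₁ (B.z v)) := by
      intro G hG
      rw [hy, Hom_div hG.1, Hom_prod hG.1]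
      congr 1
      exact Finset.sum_congr rfl fun v _ => ht2 v G hG
    obtain ⟨z, hz1, hz2, hz3⟩ := hred y (by
        rw [hy, _root_.map_div, _root_.map_prod]
        exact Pw_div hx (Pw_prod _ _ fun v _ => ht1 v)) (by
        intro v hv
        rw [hFy _ (hnv v), Finset.sum_eq_single v]
        · rw [(n1 v (hZ v hv)).2.1, mul_one, sub_self]
        · intro v' hv' hne
          rw [(n1 v (hZ v hv)).2.2 v' (hZ v' hv') (Ne.symm hne), mul_zero]
        · intro h
          exact absurd hv h) (by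
        intro w hw hwZ
        have h4 : ∀ v ∈ Z, t v ∈ HZ (M := M) B.S Z := by
          intro v hv
          refine ht3 v _ (HZ_stable B.S Z δ) ?_
          rw [mem_HZ]
          intro w' hw' hwZ'
          rw [← Pool.Agent.Helper90.RP.Dual.ordv_eq_zero_iff w' (Units.ne_zero _)]
          refine ((n1 v (hZ v hv)).1 w' hw').2 ?_
          rintro rfl
          apply hwZ' v hv
          obtain ⟨hWv, hWQ, hWw, hWf⟩ := B.Wa v (hZ v hv)
          have := hs.st1
          exact bel_of hWv hWw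
        have h5 : ∏ v ∈ Z, t v ∈ HZ (M := M) B.S Z := Subgroup.prod_mem _ h4
        have h6 := h5 w hw hwZ
        rw [← Pool.Agent.Helper90.RP.Dual.ordv_eq_zero_iff w (Units.ne_zero _)] at h6
        have h7 : (y : M) = (x : M) * ((∏ v ∈ Z, t v : Mˣ) : M)⁻¹ := by
          rw [hy, Units.val_div_eq_div_val, div_eq_mul_inv]
        rw [h7, Pool.Agent.Helper90.RP.Dual.ordv_mul w x.ne_zero (inv_ne_zero (Units.ne_zero _)),
          Pool.Agent.Helper90.RP.Dual.ordv_inv, h6, neg_zero, add_zero]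
        exact hZx w hw hwZ)
    have h4 := hunit _ hz1 hz2 F hF
    rw [hz3 F hF, hFy F hF] at h4
    have h5 : ∀ i, B.rho i (y / z ^ p) =
        B.rho i x - ∑ v ∈ Z, B.nv v x * B.rho i (nrm M M₁ (B.z v)) := by
      intro i
      rw [hz3 _ (B.rhoP i), hFy _ (B.rhoP i)]
    simp only [h5] at h4
    have h6 : ∀ v, B.nv v x * B.til F (nrm M M₁ (B.z v)) =
        B.nv v x * F (nrm M M₁ (B.z v)) -
          ∑ i, B.nv v x * B.rho i (nrm M M₁ (B.z v)) * F (B.u i) := by
      intro v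
      unfold Base.til
      rw [mul_sub, Finset.mul_sum]
      congr 1
      refine Finset.sum_congr rfl fun i _ => ?_
      ring
    simp only [h6]
    rw [Finset.sum_sub_distrib, Finset.sum_comm (s := Z)]
    have h7 : ∑ i, (B.rho i x - ∑ v ∈ Z, B.nv v x * B.rho i (nrm M M₁ (B.z v))) * F (B.u i) =
        ∑ i, B.rho i x * F (B.u i) -
          ∑ i, ∑ v ∈ Z, B.nv v x * B.rho i (nrm M M₁ (B.z v)) * F (B.u i) := by
      rw [← Finset.sum_sub_distrib]
      refine Finset.sum_congr rfl fun i _ => ?_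
      rw [sub_mul, Finset.sum_mul]
    rw [h7] at h4
    linear_combination h4
  · intro hr hn
    obtain ⟨z, hz1, hz2, hz3⟩ := hred x hx hn hZx
    have h4 : Pw p (x / z ^ p) := by
      refine B.rho0 _ hz1 hz2 fun i => ?_
      rw [hz3 _ (B.rhoP i), hr i]
    have h5 : x = x / z ^ p * z ^ p := (div_mul_cancel x (z ^ p)).symm
    rw [h5]
    exact Pw_mul h4 ⟨z, rfl⟩

end main

end Pool.Agent.Helper62.PP
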